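import Pool.Agent.R473.FP.AlgPieces

/-!
# The digits of `π` cannot be cut into few blocks of small algebraic complexity

The algebraic complexity of degree `r` of a block of digits `d_(u+1), …, d_v` is the least `k` such that
`D(X) = d_(u+1) X + ⋯ + d_v X^(v-u)` satisfies a nontrivial relation `P(X, D(X)) ≡ 0 mod X^(v-u+1)` of degree at most
`r` in `D` and at most `k` in `X`. By a dimension count it is at most about `(v - u) / (r + 1)`. Blocks of small
complexity are for instance the words `u v^w` (`r = 1`, `k` about the length of `u v`), the stretches on which a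
finite-state or a linear predictor makes no error, and the coefficients of rational and algebraic power series.

We prove that the first `N` digits of `π`, in any base, cannot be cut into fewer than `log (N / (k + 1)) / log A` blocks
of complexity at most `k`; the blocks may satisfy completely different relations, and a digit may be omitted between any
two blocks. The constant `A` depends only on the degree `r` of the relations. The same holds for every number `x`
algebraic over `ℚ(π)` but not over `ℚ`, and jointly for families of numbers algebraic over `ℚ(π)` (for instance `π`,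
`√2`, `√π`) and families of monomials.

The proof: multiplied by `b^u` the number turns a relation for the block into an integer polynomial in `π` of height
`b^(O(k + u))` with a value at most `b^(O(k + u) - v)`, and `π` has a transcendence measure of polynomial type in every
degree. See `Pool/Agent/R473/EC/` (used also in `AlgebraicComplexityWithErrors`, where there is only one block and
a bounded number of digits is changed) and `Pool/Agent/R473/FP/AlgPieces.lean`.
-/

set_option autoImplicit false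

namespace Pool.Agent.Results.MP_57632f_nt.BlocksOfSmallComplexity

open Finset Polynomial Module

/-- the `i`-th digit of `x` after the point in base `b` -/
noncomputable def digit (b : ℕ) (x : ℝ) (i : ℕ) : ℤ := ⌊x * (b : ℝ) ^ i⌋ % (b : ℤ)

/-- the polynomial `d_(u+1) X + ⋯ + d_v X^(v-u)`, where `d_i` is the `i`-th digit of `x` -/
noncomputable def blockPoly (b : ℕ) (x : ℝ) (u v : ℕ) : ℚ[X] :=
  ∑ l ∈ Icc 1 (v - u), C (digit b x (u + l) : ℚ) * X ^ l

/-- there are polynomials `h_0, …, h_m` over `ℚ` of degree `≤ k`, not all zero, such that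
`∑_j h_j ∏_i D_i ^ (E j i)` is divisible by `X^(v-u+1)`, where `D_i` is the polynomial of the block
of the digits of `x_i` from the `(u+1)`-st to the `v`-th place -/
def MonRelation (b : ℕ) {n m : ℕ} (x : Fin n → ℝ) (E : Fin (m + 1) → Fin n → ℕ) (u v k : ℕ) :
    Prop :=
  ∃ h : Fin (m + 1) → ℚ[X], h ≠ 0 ∧ (∀ j, (h j).natDegree ≤ k) ∧
    X ^ (v - u + 1) ∣ ∑ j, h j * ∏ i, blockPoly b (x i) u v ^ E j i

/-- the case of one number: there is a nonzero polynomial `P(X, Y)` over `ℚ` of degree `≤ r` in `Y`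
and `≤ k` in `X` such that `P(X, D(X))` is divisible by `X^(v-u+1)` -/
def AlgRelation (b : ℕ) (x : ℝ) (r u v k : ℕ) : Prop :=
  ∃ P : ℚ[X][X], P ≠ 0 ∧ P.natDegree ≤ r ∧ (∀ j, (P.coeff j).natDegree ≤ k) ∧
    X ^ (v - u + 1) ∣ P.eval (blockPoly b x u v)

/-- **(1)** Let `x_1, …, x_n` be real numbers algebraic over `ℚ(π)`, and let `E` be a finite set of
exponents, closed under divisors, such that the monomials with these exponents in `x_1, …, x_n` are
linearly independent over `ℚ`.  There is a constant `A` such that for all bases `b ≥ 2` and all `k`: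
if the digits up to the place `u_s` are covered by `s` blocks, from the `(u_i + 1)`-st to the
`v_i`-th digit, `i < s`, where `u_0 = 0` and `u_(i+1) ≤ v_i + 1` (one digit may be omitted between
two blocks), and the digits of `x_1, …, x_n` in every block satisfy a relation between the monomials
with coefficients of degree at most `k`, then `u_s ≤ A^s (k + 1)`.

**(2)** For `π` and for every real number algebraic over `ℚ(π)` but not over `ℚ`: for every `r`
there is such an `A` for the relations of degree at most `r`. -/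
theorem result :
    (∀ (n m : ℕ) (x : Fin n → ℝ),
      (∀ i, IsAlgebraic (IntermediateField.adjoin ℚ ({Real.pi} : Set ℝ)) (x i)) →
      ∀ E : Fin (m + 1) → Fin n → ℕ, (∀ j, ∀ a : Fin n → ℕ, a ≤ E j → ∃ j', E j' = a) →
      (LinearIndependent ℚ fun j => ∏ i, x i ^ E j i) →
      ∃ A : ℝ, 1 ≤ A ∧ ∀ b : ℕ, 2 ≤ b → ∀ (k s : ℕ) (u v : ℕ → ℕ), u 0 = 0 →
        (∀ i < s, u i ≤ v i ∧ u (i + 1) ≤ v i + 1 ∧ MonRelation b x E (u i) (v i) k) →
        (u s : ℝ) ≤ A ^ s * (k + 1)) ∧
    (∀ x : ℝ, IsAlgebraic (IntermediateField.adjoin ℚ ({Real.pi} : Set ℝ)) x →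
      Transcendental ℚ x → ∀ r : ℕ,
      ∃ A : ℝ, 1 ≤ A ∧ ∀ b : ℕ, 2 ≤ b → ∀ (k s : ℕ) (u v : ℕ → ℕ), u 0 = 0 →
        (∀ i < s, u i ≤ v i ∧ u (i + 1) ≤ v i + 1 ∧ AlgRelation b x r (u i) (v i) k) →
        (u s : ℝ) ≤ A ^ s * (k + 1)) := by
  have part1 : ∀ (n m : ℕ) (x : Fin n → ℝ),
      (∀ i, IsAlgebraic (IntermediateField.adjoin ℚ ({Real.pi} : Set ℝ)) (x i)) →
      ∀ E : Fin (m + 1) → Fin n → ℕ, (∀ j, ∀ a : Fin n → ℕ, a ≤ E j → ∃ j', E j' = a) →
      (LinearIndependent ℚ fun j => ∏ i, x i ^ E j i) →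
      ∃ A : ℝ, 1 ≤ A ∧ ∀ b : ℕ, 2 ≤ b → ∀ (k s : ℕ) (u v : ℕ → ℕ), u 0 = 0 →
        (∀ i < s, u i ≤ v i ∧ u (i + 1) ≤ v i + 1 ∧ MonRelation b x E (u i) (v i) k) →
        (u s : ℝ) ≤ A ^ s * (k + 1) := by
    intro n m x hx E hdown hli
    obtain ⟨A, hA, h⟩ := Pool.Agent.R473.FP.blocks_alg Real.pi Pool.Agent.R473.EC.measR_pi x hx E
      hdown hli
    exact ⟨A, hA, fun b hb k s u v hu hblk => h b hb k s u v hu hblk⟩
  refine ⟨part1, fun x hx htr r => ?_⟩
  obtain ⟨E, hE⟩ : ∃ E : Fin (r + 1) → Fin 1 → ℕ, E = fun (j : Fin (r + 1)) _ => (j : ℕ) :=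
    ⟨_, rfl⟩
  have hmon : ∀ (R : Type) [CommRing R] (y : Fin 1 → R) (j : Fin (r + 1)),
      ∏ i, y i ^ E j i = y 0 ^ (j : ℕ) := by
    intro R _ y j
    rw [hE]
    simp
  have hli : LinearIndependent ℚ fun j : Fin (r + 1) => ∏ i : Fin 1, (fun _ => x) i ^ E j i := by
    have h1 : (fun j : Fin (r + 1) => ∏ i : Fin 1, (fun _ => x) i ^ E j i) =
        fun j : Fin (r + 1) => x ^ (j : ℕ) := by
      ext j
      exact hmon ℝ (fun _ => x) j
    rw [h1]
    have h2 : LinearIndependent ℚ fun j : ℕ => x ^ j := by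
      have h3 : LinearIndependent ℚ fun j : ℕ => (X ^ j : ℚ[X]) := by
        have := (Polynomial.basisMonomials ℚ).linearIndependent
        simpa [Polynomial.coe_basisMonomials, Polynomial.X_pow_eq_monomial] using this
      have h4 := h3.map' (aeval x : ℚ[X] →ₐ[ℚ] ℝ).toLinearMap (by
        rw [LinearMap.ker_eq_bot]
        exact transcendental_iff_injective.1 htr)
      have h5 : (⇑(aeval x : ℚ[X] →ₐ[ℚ] ℝ).toLinearMap ∘ fun j : ℕ => (X ^ j : ℚ[X])) =
          fun j : ℕ => x ^ j := by
        ext j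
        simp
      rwa [h5] at h4
    exact h2.comp (fun j : Fin (r + 1) => (j : ℕ)) Fin.val_injective
  obtain ⟨A, hA, h⟩ := part1 1 r (fun _ => x) (fun _ => hx) E (fun j a ha => by
    have h0 : a 0 ≤ E j 0 := ha 0
    rw [hE] at h0 ⊢
    simp only [] at h0 ⊢
    refine ⟨⟨a 0, by have := j.2; omega⟩, ?_⟩
    ext i
    rw [Subsingleton.elim i 0]) hli
  refine ⟨A, hA, fun b hb k s u v hu hblk => h b hb k s u v hu fun i hi => ?_⟩
  obtain ⟨h1, h2, P, hP0, hPr, hPk, hX⟩ := hblk i hi
  refine ⟨h1, h2, fun j => P.coeff j, ?_, fun j => hPk j, ?_⟩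
  · intro h0
    apply hP0
    ext1 j
    by_cases hj : j < r + 1
    · have := congrFun h0 ⟨j, hj⟩
      simpa using this
    · rw [coeff_eq_zero_of_natDegree_lt (by omega), coeff_zero]
  · rw [eval_eq_sum_range' (show P.natDegree < r + 1 by omega), Finset.sum_range] at hX
    have e : ∑ j : Fin (r + 1), P.coeff (j : ℕ) * ∏ l : Fin 1,
        blockPoly b ((fun _ => x) l) (u i) (v i) ^ E j l =
        ∑ j : Fin (r + 1), P.coeff (j : ℕ) * blockPoly b x (u i) (v i) ^ (j : ℕ) := by
      refine Finset.sum_congr rfl fun j _ => ?_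
      rw [hmon ℚ[X] (fun l : Fin 1 => blockPoly b ((fun _ => x) l) (u i) (v i)) j]
    rw [e]
    exact hX

end Pool.Agent.Results.MP_57632f_nt.BlocksOfSmallComplexity
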