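import Pool.Agent.R473.FP.FS
import Pool.Agent.R473.FP.Pieces
import Pool.Agent.H326R2.Pi.Top

/-!
# Finite-state predictors for the digits of `π`

By theorems of Agafonov, Schnorr and Stimm a real number is normal in base `b` if and only if no finite automaton which
reads its digits one after the other predicts them better than chance (the finite-state predictability is
`(b - 1) / b`). For `π` it is not even known that a finite automaton must fail with positive frequency. Here we prove an
unconditional lower bound for the number of failures: a predictor with `Q` states which makes `E` errors on the first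
`N` digits of `π` in base `b` satisfies `N ≤ (6.05 + 6.05² + ⋯ + 6.05^(E+1)) (Q + C)`, that is
`E ≥ log (N / (Q + C)) / log 6.05 - 1.2`, with one constant `C` for all bases `b ≥ 2`, all `Q` and all predictors. (For
predictors with `Q` states that never read the digits this is a statement on the words `u v^w`; the new point is that the
automaton may use the digits which it has read, so that it may predict a different periodic word after every error.)

More generally (second part) the predictor may be replaced by any device whose predictions on every stretch without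
errors satisfy a linear recurrence over `ℚ` of order at most `m`, where the recurrence may be different on different
stretches: the digits of `π` cannot be cut into few pieces of small linear complexity. The special case in which all the
recurrences are the same contains the starting result `ErrorComplexityOfPi`.

The proof uses the irrationality measure of `π` of the starting files (`Pool.Agent.H326R2.Pi.main`): without errors the
automaton is autonomous and runs into a cycle, so that a stretch without errors from the `u`-th to the `v`-th digit gives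
a rational approximation of `π` with denominator `b^(u+a) (b^p - 1) ≤ b^(u+Q)` and error at most `b^(-v)`.
-/

set_option autoImplicit false

open Finset

namespace Pool.Agent.Results.MP_57632f_nt.FiniteStatePredictors

/-- the `i`-th digit of `x` after the point in base `b` -/
noncomputable def digit (b : ℕ) (x : ℝ) (i : ℕ) : ℤ := ⌊x * (b : ℝ) ^ i⌋ % (b : ℤ)

/-- small denominators -/
theorem small_den (x : ℝ) (hx : Irrational x) (n : ℕ) :
    ∃ c : ℝ, 0 < c ∧ ∀ q : ℕ, 1 ≤ q → q < n → ∀ p : ℤ, c ≤ |q * x - p| := by
  induction n with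
  | zero => exact ⟨1, one_pos, fun q _ h => absurd h (Nat.not_lt_zero q)⟩
  | succ n ih =>
    obtain ⟨c, hc, h⟩ := ih
    rcases Nat.eq_zero_or_pos n with hn | hn
    · exact ⟨1, one_pos, fun q h1 h2 => by omega⟩
    · have hirr : Irrational ((n : ℝ) * x) := hx.natCast_mul (by omega)
      have hpos : 0 < |(n : ℝ) * x - round ((n : ℝ) * x)| := by
        rw [abs_pos, sub_ne_zero]
        exact hirr.ne_int _
      refine ⟨min c |(n : ℝ) * x - round ((n : ℝ) * x)|, lt_min hc hpos, fun q h1 h2 p => ?_⟩
      rcases Nat.lt_succ_iff_lt_or_eq.1 h2 with h3 | h3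
      · exact (min_le_left _ _).trans (h q h1 h3 p)
      · rw [h3]
        exact (min_le_right _ _).trans (round_le _ _)

/-- the irrationality measure of `π` for all denominators -/
theorem pi_measure : ∃ c : ℝ, 0 < c ∧ ∀ q : ℕ, 1 ≤ q → ∀ p : ℤ,
    c ≤ (q : ℝ) ^ ((6.05 : ℝ) - 1) * (1 + Real.log q) ^ (0 : ℝ) * |q * Real.pi - p| := by
  obtain ⟨q0, hq0⟩ := Pool.Agent.H326R2.Pi.main
  obtain ⟨c, hc, hsm⟩ := small_den Real.pi irrational_pi q0
  refine ⟨min c 1, lt_min hc one_pos, fun q hq p => ?_⟩
  rw [Real.rpow_zero, mul_one, show (6.05 : ℝ) - 1 = 5.05 by norm_num]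
  have hqR : (1 : ℝ) ≤ q := by exact_mod_cast hq
  have hq0R : (0 : ℝ) < q := by linarith
  rcases lt_or_ge q q0 with h | h
  · refine (min_le_left _ _).trans ((hsm q hq h p).trans ?_)
    have h1 : (1 : ℝ) ≤ (q : ℝ) ^ (5.05 : ℝ) := Real.one_le_rpow hqR (by norm_num)
    nlinarith [abs_nonneg ((q : ℝ) * Real.pi - p)]
  · refine (min_le_right _ _).trans ?_
    have h1 := hq0 q h p
    have e1 : |Real.pi - p / q| = |q * Real.pi - p| / q := by
      rw [← abs_of_pos hq0R, ← abs_div, abs_of_pos hq0R]
      congr 1
      field_simp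
    rw [e1, le_div_iff₀ hq0R] at h1
    have h2 : (1 : ℝ) = (q : ℝ) ^ (5.05 : ℝ) * ((q : ℝ) ^ (-(6.05 : ℝ)) * q) := by
      have e2 : (q : ℝ) ^ (-(6.05 : ℝ)) * q = (q : ℝ) ^ (-(5.05 : ℝ)) := by
        rw [show (-(5.05 : ℝ)) = -(6.05 : ℝ) + 1 by norm_num, Real.rpow_add hq0R, Real.rpow_one]
      rw [e2, ← Real.rpow_add hq0R]
      norm_num
    rw [h2]
    exact mul_le_mul_of_nonneg_left h1 (by positivity)

lemma sum_eq (k : ℕ) :
    (∑ j ∈ Icc 1 (k + 1), (6.05 : ℝ) ^ j) = ∑ i ∈ range (k + 1), (6.05 : ℝ) ^ (i + 1) := by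
  rw [Finset.range_eq_Ico, Finset.sum_Ico_add' (fun j => (6.05 : ℝ) ^ j) 0 (k + 1) 1]
  rfl

/-- **Predicting the digits of `π`.** (1) There is a constant `C` such that for all bases `b ≥ 2`, all automata with `Q`
states (transitions `δ`, initial state `q₀`, predictions `out`) and all `N` the number `E` of errors of the automaton on
the first `N` digits of `π` satisfies `N ≤ (6.05 + ⋯ + 6.05^(E+1)) (Q + C)`. Here the `n`-th prediction, for
`0 ≤ n < N`, is `out (run δ q₀ d n)`, where `run δ q₀ d n` is the state after the automaton has read the first `n`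
digits; it is an error if it is not the next digit. (2) There is a constant `C` such that for all bases `b ≥ 2` and all
`N`, `m`, `r`: if `E` is a set of at most `r` of the places `i < N` and every stretch of the digits `d_(u+1), …, d_v`,
`v ≤ N`, with no place `i ∈ E`, `u ≤ i < v`, satisfies a linear recurrence over `ℚ` of order `m` (which may depend on
the stretch), then `N ≤ (6.05 + ⋯ + 6.05^(r+1)) (m + C √((m + 1) log (m + 2)))`. -/
theorem result :
    (∃ C : ℝ, ∀ b : ℕ, 2 ≤ b → ∀ (Q : ℕ) (δ : Fin Q → ℤ → Fin Q) (q₀ : Fin Q) (out : Fin Q → ℤ)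
      (N : ℕ), (N : ℝ) ≤
        (∑ j ∈ Icc 1 (Pool.Agent.R473.FP.errors δ q₀ out (digit b Real.pi) N + 1), (6.05 : ℝ) ^ j) *
          (Q + C)) ∧
    (∃ C : ℝ, ∀ b : ℕ, 2 ≤ b → ∀ (N m r : ℕ) (E : Finset ℕ), E.card ≤ r →
      (∀ u v, u ≤ v → v ≤ N → (∀ i ∈ E, i < u ∨ v ≤ i) → ∃ c : ℕ → ℚ, ∀ i, u ≤ i → i + m < v →
        (digit b Real.pi (i + m + 1) : ℚ) = ∑ l ∈ range m, c l * (digit b Real.pi (i + l + 1) : ℚ)) →
      (N : ℝ) ≤ (∑ j ∈ Icc 1 (r + 1), (6.05 : ℝ) ^ j) *
        (m + C * Real.sqrt (((m : ℝ) + 1) * Real.log ((m : ℝ) + 2)))) := by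
  obtain ⟨c, hc, hx⟩ := pi_measure
  constructor
  · obtain ⟨C, hC0, hC⟩ := Pool.Agent.R473.FP.predictors Real.pi 6.05 c 0 (by norm_num) hc le_rfl hx
    refine ⟨C, fun b hb Q δ q₀ out N => ?_⟩
    have h := hC b hb Q δ q₀ out N
    rw [mul_zero, zero_div, zero_mul, add_zero] at h
    rw [sum_eq]
    exact h
  · obtain ⟨C, hC0, hC⟩ := Pool.Agent.R473.FP.pieces 1 (fun _ => Real.pi) 6.05 c 0 (by norm_num) hc
      le_rfl (fun q hq p => ⟨0, hx q hq (p 0)⟩)
    refine ⟨C, fun b hb N m r E hE hrec => ?_⟩
    rw [sum_eq]
    refine hC b hb N m r E hE fun u v huv hvN hE' => ?_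
    obtain ⟨c', hc'⟩ := hrec u v huv hvN hE'
    exact ⟨c', fun _ i h1 h2 => hc' i h1 h2⟩

end Pool.Agent.Results.MP_57632f_nt.FiniteStatePredictors
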