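import Mathlib
import Pool.Agent.Y934.Multi
import Pool.Agent.TH768.DG.Trans
import Pool.Agent.TH456.TM.Inst

/-!
# Blocks of digits in the expansions of most of the numbers `P(π)`

`count b k w z n` is the number of places `i < n` such that the `k` digits of `z` in base `b` after the
`i`-th one are `w 0, …, w (k - 1)`.

Let `g_1, …, g_d` be polynomials with integer coefficients such that `1, g_1, …, g_d` are linearly
independent over `ℚ`, for instance `g_j = X ^ j`.  For most of the integer vectors `a` in the box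
`[0, M) ^ d`, namely for all but `C M ^ (d - c)` of them, every block of `k` digits in base `b` (for
instance `b = 10`) occurs among the first `n` digits of `y + a_1 g_1(π) + ⋯ + a_d g_d(π)` at least
`(1 - ε) b ^ (-k) log_b M · log (n / (C log M)) / log (1 + τ)` times; here `y` is an arbitrary real
number, the constants `c` and `C` do not depend on `y`, and `τ` depends only on the polynomials `g_j`
(not on the base, on the length of the block or on `ε`).  In particular (`g_j = X ^ j`, `M` fixed or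
growing) this describes the digits of the numbers `P(π)` for most of the polynomials `P` of degree
at most `d` with nonnegative integer coefficients less than `M`.

The proof combines three theorems of the starting library: the transcendence measure of `π` of
polynomial type in every degree (`Pool.Agent.TH456.TM.measT_pi`), a transference principle
(`Pool.Agent.TH768.DG.transfer`) and the theorem on blocks in most integer combinations of numbers
which have a simultaneous irrationality measure (`Pool.Agent.Y934.multi`).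
-/

set_option autoImplicit false

open Finset Filter Polynomial

namespace Pool.Agent.Results.MP_57632f_nt.PolynomialsInPi

/-- the number of places `i < n` such that the `k` digits of `z` in base `b` after the `i`-th one are
`w 0, …, w (k - 1)` (the `j`-th digit of `z` behind the point is `⌊z b ^ j⌋ mod b`) -/
noncomputable def count (b k : ℕ) (w : Fin k → Fin b) (z : ℝ) (n : ℕ) : ℕ :=
  {i : ℕ | i < n ∧ ∀ s : Fin k, ⌊z * (b : ℝ) ^ (i + s + 1)⌋ % (b : ℤ) = ((w s : ℕ) : ℤ)}.ncard

lemma count_eq (b k : ℕ) (w : Fin k → Fin b) (y : ℝ) (n : ℕ) :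
    count b k w y n = Pool.Agent.W226.MP.occ b k w y 0 n := by
  classical
  unfold count Pool.Agent.W226.MP.occ Pool.Agent.W226.MP.OccursAt Pool.Agent.W226.MP.digit
  rw [← Set.ncard_coe_finset]
  congr 1
  ext i
  simp only [Set.mem_ofPred_eq, Finset.coe_filter, Finset.mem_range, zero_add]

/-- a measure of linear independence of the numbers `1, g_1(π), …, g_d(π)` -/
lemma measL_pi {d : ℕ} (g : Fin d → ℤ[X])
    (hg : ∀ (u : ℤ) (v : Fin d → ℤ), C u + ∑ j, C (v j) * g j = 0 → v = 0) :
    ∃ w c : ℝ, (d : ℝ) ≤ w ∧ 0 < c ∧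
      Pool.Agent.W472.AC.MeasL (fun j => aeval Real.pi (g j)) w c := by
  classical
  obtain ⟨D, hD⟩ : ∃ D : ℕ, ∀ j, (g j).natDegree ≤ D :=
    ⟨Finset.univ.sup fun j => (g j).natDegree, fun j => Finset.le_sup (f := fun j =>
      (g j).natDegree) (Finset.mem_univ j)⟩
  obtain ⟨κ, c, hκ, hc, h⟩ := Pool.Agent.TH456.TM.measT_pi D
  -- a bound for the coefficients
  obtain ⟨K, hK1, hK⟩ : ∃ K : ℝ, 1 ≤ K ∧ ∀ (u : ℤ) (v : Fin d → ℤ) (H : ℝ), 1 ≤ H →
      |(u : ℝ)| ≤ H → (∀ s, |(v s : ℝ)| ≤ H) → ∀ i,
        |((C u + ∑ j, C (v j) * g j : ℤ[X]).coeff i : ℝ)| ≤ K * H := by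
    refine ⟨1 + ∑ j, ∑ i ∈ Finset.range (D + 1), |((g j).coeff i : ℝ)|, ?_, ?_⟩
    · have : 0 ≤ ∑ j, ∑ i ∈ Finset.range (D + 1), |((g j).coeff i : ℝ)| :=
        Finset.sum_nonneg fun j _ => Finset.sum_nonneg fun i _ => abs_nonneg _
      linarith
    · intro u v H hH hu hv i
      have hcoef : ∀ j, |((g j).coeff i : ℝ)| ≤
          ∑ i ∈ Finset.range (D + 1), |((g j).coeff i : ℝ)| := by
        intro j
        by_cases hi : i ≤ D
        · exact Finset.single_le_sum (f := fun i => |((g j).coeff i : ℝ)|)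
            (fun i _ => abs_nonneg _) (Finset.mem_range.2 (by omega))
        · rw [coeff_eq_zero_of_natDegree_lt (lt_of_le_of_lt (hD j) (by omega))]
          simp only [Int.cast_zero, abs_zero]
          exact Finset.sum_nonneg fun i _ => abs_nonneg _
      rw [coeff_add, finsetSum_coeff]
      push_cast
      have h1 : |((C u : ℤ[X]).coeff i : ℝ)| ≤ H := by
        rw [coeff_C]
        split_ifs
        · exact hu
        · simp only [Int.cast_zero, abs_zero]; linarith
      have h2 : |∑ j, ((C (v j) * g j : ℤ[X]).coeff i : ℝ)| ≤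
          (∑ j, ∑ i ∈ Finset.range (D + 1), |((g j).coeff i : ℝ)|) * H := by
        refine (Finset.abs_sum_le_sum_abs _ _).trans ?_
        rw [Finset.sum_mul]
        refine Finset.sum_le_sum fun j _ => ?_
        rw [coeff_C_mul]
        push_cast
        rw [abs_mul, mul_comm]
        exact mul_le_mul (hcoef j) (hv j) (abs_nonneg _)
          (Finset.sum_nonneg fun i _ => abs_nonneg _)
      refine (abs_add_le _ _).trans ?_
      rw [add_mul, one_mul]
      exact add_le_add h1 h2
  have hK0 : 0 < K := by linarith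
  refine ⟨max κ d, c / K ^ κ, le_max_right _ _, by positivity, ?_⟩
  intro u v huv H hH hu hv
  have hP0 : (C u + ∑ j, C (v j) * g j : ℤ[X]) ≠ 0 := by
    intro h0
    have hv0 : v = 0 := hg u v h0
    rcases huv with h1 | h1
    · apply h1
      rw [hv0] at h0
      simpa using h0
    · exact h1 hv0
  have hdeg : (C u + ∑ j, C (v j) * g j : ℤ[X]).natDegree ≤ D := by
    refine (natDegree_add_le _ _).trans (max_le (by simp) ?_)
    refine natDegree_sum_le_of_forall_le _ _ fun j _ => ?_
    exact (natDegree_C_mul_le _ _).trans (hD j)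
  have h1 := h _ hP0 hdeg (K * H) (by nlinarith) (hK u v H hH hu hv)
  have h2 : aeval (Real.pi : ℂ) (C u + ∑ j, C (v j) * g j : ℤ[X]) =
      ((u + ∑ j, (v j : ℝ) * aeval Real.pi (g j) : ℝ) : ℂ) := by
    rw [show (Real.pi : ℂ) = algebraMap ℝ ℂ Real.pi from rfl, aeval_algebraMap_apply]
    simp [map_sum]
  rw [h2, Complex.norm_real, Real.norm_eq_abs, Real.mul_rpow hK0.le (by linarith)] at h1
  have h3 : H ^ κ ≤ H ^ (max κ d) := Real.rpow_le_rpow_of_exponent_le hH (le_max_left _ _)
  rw [div_le_iff₀ (by positivity)]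
  calc c ≤ K ^ κ * H ^ κ * |(u : ℝ) + ∑ j, (v j : ℝ) * aeval Real.pi (g j)| := h1
    _ ≤ K ^ κ * H ^ (max κ d) * |(u : ℝ) + ∑ j, (v j : ℝ) * aeval Real.pi (g j)| := by
        gcongr
    _ = _ := by ring

/-- **Blocks of digits in most of the numbers `P(π)`.** Let `g_1, …, g_d`, `d ≥ 1`, be polynomials with
integer coefficients such that `1, g_1, …, g_d` are linearly independent (over `ℤ`, hence over `ℚ`), for
instance `g_j = X ^ j`.  There is `τ > 0` such that for all `b ≥ 2`, `k ≥ 1` and `0 < ε < 1` there are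
`c, C > 0` with the following property.  For all real `y`, all `M ≥ 2` and all `n`, and for all but at
most `C M ^ (d - c)` of the integer vectors `a` with `0 ≤ a_j < M`, every block of `k` digits in
base `b` occurs at least `(1 - ε) b ^ (-k) log_b M log (n / (C log M)) / log (1 + τ)` times at the
first `n` places of `y + a_1 g_1(π) + ⋯ + a_d g_d(π)`. -/
theorem result (d : ℕ) (hd : 1 ≤ d) (g : Fin d → ℤ[X])
    (hg : ∀ (u : ℤ) (v : Fin d → ℤ), C u + ∑ j, C (v j) * g j = 0 → v = 0) :
    ∃ τ : ℝ, 0 < τ ∧ ∀ b k : ℕ, 2 ≤ b → 1 ≤ k → ∀ ε : ℝ, 0 < ε → ε < 1 →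
      ∃ c C : ℝ, 0 < c ∧ 0 < C ∧ ∀ (y : ℝ) (M n : ℕ), 2 ≤ M →
        (({a : Fin d → ℕ | (∀ j, a j < M) ∧ ¬ ∀ w : Fin k → Fin b,
          (1 - ε) * ((b : ℝ) ^ k)⁻¹ * Real.logb b M *
              (Real.log (n / (C * Real.log M)) / Real.log (1 + τ)) ≤
            (count b k w (y + ∑ j, a j * aeval Real.pi (g j)) n : ℝ)}.ncard : ℕ) : ℝ) ≤
          C * (M : ℝ) ^ ((d : ℝ) - c) := by
  classical
  obtain ⟨d, rfl⟩ : ∃ d', d = d' + 1 := ⟨d - 1, by omega⟩
  obtain ⟨w0, c0, hw0, hc0, hm⟩ := measL_pi g hg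
  obtain ⟨c1, hc1, hm1⟩ := Pool.Agent.TH768.DG.transfer (by omega) _ w0 c0 hw0 hc0 hm
  have hdR : (0 : ℝ) < ((d + 1 : ℕ) : ℝ) := by positivity
  set τ : ℝ := (w0 + 1) / ((d + 1 : ℕ) : ℝ) - 1 with hτ
  have hτ0 : 0 < τ := by
    rw [hτ, sub_pos, lt_div_iff₀ hdR]
    linarith
  have hm2 : ∀ q : ℕ, 1 ≤ q → ∀ p : Fin (d + 1) → ℤ, ∃ j, c1 ≤ (q : ℝ) ^ τ *
      |q * aeval Real.pi (g j) - p j| := by
    intro q hq p
    obtain ⟨j, hj⟩ := hm1 q hq p
    refine ⟨j, ?_⟩
    rwa [Real.rpow_zero, mul_one] at hj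
  have hirr : ∀ j, Irrational (aeval Real.pi (g j)) := by
    intro j
    rintro ⟨r, hr⟩
    have h1 := hm (-r.num) (Pi.single j (r.den : ℤ)) (Or.inr (by
      intro h2
      have := congrFun h2 j
      simp at this)) (1 + |(r.num : ℝ)| + r.den) (by
        have := abs_nonneg (r.num : ℝ)
        have : (0 : ℝ) ≤ r.den := Nat.cast_nonneg _
        linarith) (by
        push_cast
        rw [abs_neg]
        have : (0 : ℝ) ≤ r.den := Nat.cast_nonneg _
        linarith) (fun s => by
        have h3 : |((Pi.single j (r.den : ℤ) : Fin (d + 1) → ℤ) s : ℝ)| ≤ r.den := by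
          by_cases hs : s = j
          · subst hs
            simp
          · rw [Pi.single_eq_of_ne hs]
            simp
        have := abs_nonneg (r.num : ℝ)
        linarith)
    have h2 : ∑ s, ((Pi.single j (r.den : ℤ) : Fin (d + 1) → ℤ) s : ℝ) * aeval Real.pi (g s) =
        r.num := by
      rw [Finset.sum_eq_single j]
      · rw [Pi.single_eq_same, ← hr]
        have := Rat.mul_den_eq_num r
        have h3 : (r : ℝ) * r.den = r.num := by exact_mod_cast this
        push_cast
        linarith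
      · intro s _ hs
        rw [Pi.single_eq_of_ne hs]
        simp
      · intro hj
        exact absurd (mem_univ j) hj
    rw [h2] at h1
    push_cast at h1
    rw [neg_add_cancel, abs_zero, mul_zero] at h1
    linarith
  refine ⟨τ, hτ0, fun b k hb hk ε hε hε1 => ?_⟩
  obtain ⟨c, C, hc, hC, h⟩ := Pool.Agent.Y934.multi (fun j => aeval Real.pi (g j)) τ c1
    hirr hτ0 hc1 hm2 b k hb hk ε hε hε1
  refine ⟨c, C, hc, hC, fun y M n hM => ?_⟩
  have e0 : (((d + 1 : ℕ) : ℝ) - c) = (d : ℝ) + 1 - c := by push_cast; ring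
  rw [e0]
  refine le_trans (Nat.cast_le.2 ?_) (h y M n hM)
  rw [← Finset.card_image_of_injective (f := fun (a : Fin (d + 1) → Fin M) (j : Fin (d + 1)) =>
    ((a j : Fin M) : ℕ)) _ (fun a a' haa => by
      funext j
      exact Fin.ext (congrFun haa j)), ← Set.ncard_coe_finset]
  refine Set.ncard_le_ncard ?_ (Finset.finite_toSet _)
  rintro a ⟨ha, h2⟩
  push Not at h2
  obtain ⟨w, hw⟩ := h2
  rw [count_eq] at hw
  rw [Finset.mem_coe, Finset.mem_image]
  refine ⟨fun j => ⟨a j, ha j⟩, ?_, rfl⟩
  rw [Finset.mem_filter]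
  refine ⟨mem_univ _, w, lt_of_lt_of_le hw (le_of_eq ?_)⟩
  have hb1 : (1 : ℝ) < b := by exact_mod_cast (by omega : 1 < b)
  have hlb : 0 < Real.log b := Real.log_pos hb1
  rw [Real.logb]
  field_simp

end Pool.Agent.Results.MP_57632f_nt.PolynomialsInPi
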